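import Pool.Agent.Run7.h261.LI.Even

/-!
# Local factors of hyperkähler varieties: even degrees, and all degrees in dimension four

Let `X` be a projective hyperkähler variety over a number field `K` (for example `ℚ`) such that the
Künneth projector for `H²(X)` is algebraic, for example of one of the deformation types `K3^[n]` or
`Kum_n`. We prove for all even `i` that the local factors of `H^i(X)` at all finite places `u` of `K`, in
particular at the places of arbitrarily bad reduction, have coefficients in `ℤ` and do not depend on
`ℓ`. If `X` has dimension four then we prove this for all `i`. The result is a reduction to `H²(X)`: we
only need that the traces of the elements of positive degree of the Weil group on `H²(X)` are rational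
and independent of `ℓ`.

Known facts which are used: the structure of the cohomology with the action of `so(H²)` (Verbitsky,
Looijenga-Lunts), Weil's conjectures, Katz-Messing, Grothendieck's monodromy theorem, the
weight-monodromy conjecture for `H²`; extensions of trivial representations split over open subgroups
(`Rigid`: Faltings, Bloch-Kato); the first fundamental theorem of invariant theory (`HKTwo.Weyl`); the
field `two` (T. Saito); in dimension four also the alternating sum of the traces (Ochiai, T. Saito) and
hard Lefschetz.

Idea of the proof. (1) `Coset`: an open subgroup `U` of the Galois group acts through `H²` on the tensor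
constructions of even weight, so the trace of `τ σ` on `H^i(X)`, for fixed `σ` and `τ ∈ U`, is a linear
combination of products of traces of powers of `τ σ` on `H²(X)` and of powers of the cyclotomic
character. The coefficients are in `Ω_ℓ`, but the Frobenius elements in the coset `U σ` have rational
traces, so there are rational coefficients, and they are good for all `ℓ` (`Transfer`). So the traces
of the elements `σ` of the Weil group on `H^i(X)` are rational and independent of `ℓ`. (2) The
weight-monodromy conjecture is true for `H^i(X)` (starting library `N184.HK`). Hence the trace of `σ` on
the kernel of the monodromy operator is the sum of the eigenvalues of weight at most `i`, minus `q`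
times the sum of the eigenvalues of weight at most `i - 2` (`Kernel`), and this is rational and
independent of `ℓ` (`Rat`, `KerRat`). (3) The trace of Frobenius on the part fixed by inertia is an
average of such traces. (4) In dimension four the traces on `H³(X)` and `H⁵(X)` are determined by the
alternating sum and the even degrees.
-/

set_option autoImplicit false

namespace Pool.Agent.Results.MP_898f40_nt.HyperkaehlerEvenDegrees

open Pool.Agent.Run7.h261.LI Pool.Agent.Run7.h261.MT Pool.Agent.W401.Cheb NumberField
open IsDedekindDomain Polynomial

/-- **Even degrees, and all degrees in dimension four.** Let `X` be a projective hyperkähler variety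
over the number field `K`, `u` a finite place, `Q` a maximal ideal above `u`, and `g` a geometric
Frobenius element at `Q`. (1) If the traces of the elements of positive degree of the Weil group on
`H²(X)` are rational and independent of `ℓ` (a field of `HKTwo`), then for all even `i` (for which
`HKTwo.Weyl` holds) the polynomial `det (1 - g T | H^i(X) ^ I)` has coefficients in `ℤ` and is the same
for all `ℓ` which are not below `u`. (2) If the dimension of `X` is four then this is true for all
`i`. -/
theorem result {K : Type} [Field K] [NumberField K] {u : HeightOneSpectrum (𝓞 K)}
    {Q : Ideal (𝓞 (AlgebraicClosure K))} (g : GK K) (hg : IsWeil u Q 1 g) :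
    (∀ S : HKTwo K u Q, ∀ i ≤ S.d, Even i → S.Weyl (.H i) →
      ∃ P : ℤ[X], ∀ l, (S.R l).LocalFactorIs i g P) ∧
    (∀ S : HKFour K u Q, ∀ i ≤ 8, ∃ P : ℤ[X], ∀ l, (S.R l).LocalFactorIs i g P) :=
  ⟨fun S _ hi _ hV => S.even hi hV hg, fun S _ hi => S.all hi hg⟩

end Pool.Agent.Results.MP_898f40_nt.HyperkaehlerEvenDegrees
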