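import Pool.Agent.Run7.h261.LI.Unram

/-!
# Local factors of hyperkähler varieties at places where `H²` is potentially unramified

Let `X` be a projective hyperkähler variety over a number field `K` (for example `ℚ`), of any
deformation type, and let `u` be a finite place of `K` such that an open subgroup of the inertia group
acts trivially on `H²(X)`. We prove for all `i` that the local factor of `H^i(X)` at `u` has
coefficients in `ℤ` and does not depend on `ℓ`. It is not assumed that `X` has good reduction over an
extension of `K`; for hyperkähler varieties of dimension at least four this is not known to follow.

Known facts which are used: the structure of the cohomology with the action of `so(H²)` (Verbitsky,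
Looijenga-Lunts), Weil's conjectures, Katz-Messing, Grothendieck's monodromy theorem, the
weight-monodromy conjecture for `H²`; the alternating sum of the traces of an element of the Weil
group on the `H^i(X)` is rational and independent of `ℓ` (Ochiai, T. Saito).

Idea of the proof. The logarithm `N i` of the monodromy on `H^i(X)` is the image of `N 2 = 0` under the
action of `so(H²)`, and the weight-monodromy conjecture is true for all `H^i(X)` (starting library
`N184.HK`; this uses the places of good reduction). So `N i = 0`, and the eigenvalues of the elements of
the Weil group on `H^i(X)` are pure of weight `i`. Hence the different degrees have no eigenvalues in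
common, and we can find a polynomial `f` with rational coefficients which separates them, for two
primes `ℓ` and `ℓ'` at the same time. So the traces on each `H^i(X)` are rational and independent of
`ℓ`. The trace of a power of Frobenius on the part fixed by inertia is an average of such traces, and
these traces determine the local factor, by Newton's identities.
-/

set_option autoImplicit false

namespace Pool.Agent.Results.MP_898f40_nt.HyperkaehlerUnramified

open Pool.Agent.Run7.h261.LI Pool.Agent.W401.Cheb NumberField IsDedekindDomain Polynomial

/-- **Places where `H²(X)` is potentially unramified.** Let `X` be a projective hyperkähler variety
over the number field `K`, `u` a finite place and `Q` a maximal ideal above `u`, such that the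
monodromy operator of `H²(X)` at `u` is zero. Then for all `i` and all geometric Frobenius elements `g`
at `Q`, the polynomial `det (1 - g T | H^i(X) ^ I)` has coefficients in `ℤ` and is the same for all
`ℓ` which are not below `u`. -/
theorem result {K : Type} [Field K] [NumberField K] {u : HeightOneSpectrum (𝓞 K)}
    {Q : Ideal (𝓞 (AlgebraicClosure K))} (S : HKSystem K u Q) (h0 : ∀ l, (S.R l).PotUnramified)
    (i : ℕ) (hi : i ≤ S.d) (g : GK K) (hg : IsWeil u Q 1 g) :
    ∃ P : ℤ[X], ∀ l, (S.R l).LocalFactorIs i g P :=
  unram S h0 hi hg

end Pool.Agent.Results.MP_898f40_nt.HyperkaehlerUnramified
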