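import Pool.Agent.Run7.h307.LI.Final

/-!
# MP_898f40_nt: integrality and independence of `ℓ` of local factors near a normal crossing fibre

Let `K` be a finite extension of `ℚ_p` (for the problem `K = ℚ_p`), whose residue field has `q` elements,
`B` a smooth variety over `K`, `D = D_1 ∪ … ∪ D_r` a divisor with strict normal crossings on `B`, with
`D_j` given by `u_j = 0`, and `0 ∈ B(K)` a point of `D_1 ∩ … ∩ D_r`. Let `f : 𝒳 → B` be a projective
family, smooth over `B - D`, with unipotent local monodromy at `0`. Nothing is assumed about models over
the ring of integers of `K`: the degeneration takes place in characteristic zero.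

Let `Y` be the degenerate fibre of a semistable model of the family over a curve in `B` through `0`, and
suppose that the strata of `Y` (smooth projective varieties over `K`) satisfy the weight-monodromy
conjecture in the middle degrees (for fibres of dimension three: `H^3` of the components of `Y`, for
example if they are uniruled threefolds for which `H^3` comes from curves, such as rationally
connected ones). Then for each `ℓ ≠ p` there is a small set `S ℓ` of exceptional vectors of valuations,
contained in an algebraic hypersurface and with finitely many points on each ray in the open cone
(finite for `r = 1`), with the following property.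

Let `t` be a point of `B - D` with values in a finite extension `K(t)` of `K`, and `X'` a smooth proper
variety over a subfield `K'` of `K(t)` (for example `K' = ℚ_p`, `X'` is defined over `ℚ`, and `X'` is
isomorphic to `X_t`, or dominated by `X_t`, over `K(t)`). Suppose that the traces on `H^m(X')` of the
elements of positive degree of the Weil group of `K'` are rational and independent of `ℓ`. This is
known in many cases, for example for `H^3` of threefolds with `h^(2,0) = 0` (theorem of Ochiai and
Saito on the alternating sum), but it does not give the local factors, which depend on the ranks
of the powers of the monodromy operators. Then there is one polynomial `P` with coefficients in `ℤ` such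
that `det (1 - F T | V_ℓ ^ I) = P` for all `ℓ` for which `t` lies in the polydisc of local constancy and
the vector `(v(u_1(t)), …, v(u_r(t)))` is not in `S ℓ`.

Moreover `S ℓ = S ℓ'` if the limit cohomology groups, with all operators, are isomorphic for `ℓ` and
`ℓ'`, for example for families over number fields with strata of Tate type. Then the result holds for
all `ℓ` together.

For the idea of the proof see `MP_a3c811_ag.NearNormalCrossings`.
-/

set_option autoImplicit false

open Polynomial Run7.h307.LI Run7.h307.WM Run7.h307.WM2 Run7.h615.WL

namespace Pool.Agent.Results.MP_898f40_nt.NearNormalCrossings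

/-- **Integrality and independence of `ℓ` of the local factors near a normal crossing fibre.** Let
`Y` be the `ℓ`-adic data, for all primes `ℓ` in `Λ`, of a projective family with `r` parameters over a
`p`-adic field `K` with a degenerate fibre over `0`, whose strata satisfy the weight-monodromy conjecture
(`h`). There are exceptional sets `S ℓ` of vectors of valuations, each contained in the zero set of a
nonzero polynomial and with finitely many points on each ray of the open cone, with `S ℓ = S ℓ'` if
the limit cohomology groups for `ℓ` and `ℓ'` are isomorphic (`SameLimit`), such that the following holds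
for all points `t` and all `m`. Let `M` be the cohomology in degree `m` of a variety dominated by `X_t`,
such that the traces of the elements of positive degree of the Weil group are rational and
independent of `ℓ`, and the eigenvalues are algebraic integers (known). Then there is a polynomial `P`
over `ℤ` such that `det (1 - F T | V_ℓ ^ I) = P` for all Frobenius elements `F` and all `ℓ` such that
`t` belongs to the polydisc for `ℓ` and its vector of valuations is not in `S ℓ`. -/
theorem result {Λ : Type} {Ω : Λ → Type} [∀ l, Field (Ω l)] [∀ l, CharZero (Ω l)]
    [∀ l, IsAlgClosed (Ω l)] {n q r : ℕ} (hq : 1 < q) (Y : Realizations Λ Ω n q r)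
    (h : ∀ l, (Y.X l).StrataPure) :
    ∃ S : Λ → Set (Fin r → ℚ),
      (∀ l, ∃ P : MvPolynomial (Fin r) ℚ, P ≠ 0 ∧ ∀ c ∈ S l, MvPolynomial.eval c P = 0) ∧
      (∀ l, ∀ b : Fin r → ℕ, (∀ j, 0 < b j) → {s : ℚ | (fun j => s * b j) ∈ S l}.Finite) ∧
      (∀ l l', SameLimit (Y.X l) (Y.X l') → S l = S l') ∧
      ∀ (t : Y.Point) (m : ℕ) (M : Y.Dominated t m), M.HasRationalTraces →
        M.HasIntegralEigenvalues →
        ∃ P : ℤ[X], ∀ l, t ∈ Y.disc l → Y.val t ∉ S l → ∀ F,
          M.degree F = Multiplicative.ofAdd 1 → ∀ f,
            IsLocalFactor M.degree (M.R l).ρ F f ↔ f = P.map (Int.castRingHom (Ω l)) :=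
  ⟨fun l => badSet (Y.X l), fun l => (main' hq (Y.X l) (h l)).1,
    fun l => (main' hq (Y.X l) (h l)).2.1, fun _ _ hs => badSet_eq hs,
    fun t m M hM hi => factors_int hq Y h t m M hM hi⟩

end Pool.Agent.Results.MP_898f40_nt.NearNormalCrossings
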