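import Pool.Agent.Run7.h615.WI.Main

/-!
# MP_898f40_nt: integrality and independence of `ℓ` of the local Euler factors of
threefolds whose reduction has uniruled components
-/

set_option autoImplicit false

open Module

universe u v

namespace Pool.Agent.Results.MP_898f40_nt.UniruledReduction

open Pool.Agent.Y143 Run7.h615.WI

/-- **Integrality and independence of `ℓ` of the local Euler factors, for varieties whose reduction
has fibred components and simple Frobenius spectrum.**
Let `X` be a smooth projective variety of dimension `n ≥ 3` over a local field `K` (for example
`ℚ_p`) with a projective strictly semistable model over the ring of integers; `q` is the number of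
elements of the residue field. `Λ` is a set of primes `ℓ ≠ p`, `Ω ℓ` is an algebraic closure of
`ℚ_ℓ`, and `X ℓ` is the `ℓ`-adic cohomology of the strata of the special fibre and of the geometric
generic fibre, with the weight spectral sequence and the monodromy operator `N`. The inertia group
acts on `H^m` through `exp (t_ℓ N)`, so that the kernel of `N` is the space of the inertia
invariants, and the local Euler factor is given by the polynomial `det (1 - T F | ker N)`
(`IsEulerFactor`), where `F` is the geometric Frobenius.

`Y^(a+1)`, of dimension `n - a`, is the disjoint union of the intersections of `a + 1` different
components of the special fibre; let `Y_i` (`i : I`) be the components of the special fibre and `D_j`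
(`j : J`) the components of `Y^(2)`, defined over the residue field. The condition `AreFibred` means
that `H^2(Y^(1))` is generated by

* the classes of divisors;
* classes with restriction zero to `Y^(2)`;
* for each `i`, a space `T i` of classes on `Y_i` which comes from a smooth projective surface `S_i`,
  the base of a fibration of `Y_i` (or of a covering of `Y_i`): the restriction from `T i` to `D_j`
  multiplies the intersection form `form i` of `S_i` by the degree `deg i j ≥ 0` of
  `D_j ∩ L^(n - 3)` over `S_i`, and it is zero if this degree is zero;

and that for each link, that is a `D_j` which is mapped onto `S_i` for both (at least two) of the
components `Y_i` which contain it, the Frobenius has simple spectrum on the transcendental part of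
`H^2(D_j)`: the generalized eigenspaces in the classes orthogonal to the classes of divisors have
dimension at most one; this is only necessary for the eigenvalues which occur on `T i` for two of
these `i`.

Then there is a polynomial `P` with coefficients in `ℤ` such that for all `ℓ`
`det (1 - T F | H^m(X_{\bar K}, ℚ_ℓ)^I) = P`, for all `m` if `X` is a threefold, and for `m ≤ 2` and
`m ≥ 2 n - 2` in general.

For threefolds the condition is satisfied if all components `Y_i` of the special fibre are uniruled,
or have no transcendental cycles, and the Frobenius on the transcendental part of the second cohomology
of the double surfaces has no multiple eigenvalue: if `P → Y_i` is a dominant map of degree `e` and `P`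
has a fibration over a surface `S` whose general fibre is a rational curve, with image `C` in `Y_i`,
then `H^2(Y_i)` is the direct sum of the classes of divisors and the space `T i` of the classes `x`
whose pull-back to `P` is the pull-back of a class `x_S` on `S` which is orthogonal to the classes of
curves, `form i x y = (x_S . y_S) / e` and `deg i j = D_j . C`. There is no condition on the dual
complex, on the geometric genus of the double surfaces or on `H^3`, and the Tate conjecture is not
assumed.

The fields of the structures are known facts: `Degeneration` is the cohomology of the strata and of
the generic fibre with the weight spectral sequence and the hard Lefschetz theorem; `DivisorClasses`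
has the Hodge index theorem and Weil's positivity; the products of the restrictions to the `D_j`, of
the transposes `push i j : H^2(D_j) → T i` and of powers of the Frobenius are given by algebraic
correspondences, so that their traces on `H(Y^(1))` are rational and independent of `ℓ` (`traceAt`).
`KnownFacts` and `IsIntegralRelated` have the independence of `ℓ` and integrality for the strata
(Deligne), for their components, Picard varieties and Neron-Severi groups, and the relation
`N F = q F N`. -/
theorem result {Λ : Type} {Ω : Λ → Type u} [∀ l, Field (Ω l)] [∀ l, CharZero (Ω l)]
    [∀ l, IsAlgClosed (Ω l)] {Γ : Type} {n q : ℕ} (hq : 2 ≤ q) (hn : 3 ≤ n)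
    (X : ∀ l, Degeneration.{u, v} (Ω l) Γ n q) (D : ∀ l, IsIntegralRelated (X l))
    (A : ∀ l, DivisorClasses (X l).toSpecialFibre) (K : KnownFacts A) (h : AreFibred A) (m : ℕ)
    (hm : m ≤ 2 ∨ 2 * n ≤ m + 2 ∨ n = 3) :
    ∃ P : Polynomial ℤ, ∀ l, IsEulerFactor ((X l).actV m (X l).frob) (LinearMap.ker ((X l).N m))
      (P.map (Int.castRingHom (Ω l))) :=
  independence hq hn D K h m hm

end Pool.Agent.Results.MP_898f40_nt.UniruledReduction
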